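import Pool.Agent.Helper2.FX.StG

set_option autoImplicit false

namespace Pool.Agent.Helper22.FX

open Set Metric Pool.Agent.Helper84.FX Pool.Agent.Helper2.FX

private def un {F : Type} (L : List (Set F)) : Set F := {y | ∃ O ∈ L, y ∈ O}

private lemma un_nil {F : Type} : un ([] : List (Set F)) = ∅ := by
  ext y
  simp [un]

private lemma mem_un_cons {F : Type} (Q : Set F) (L : List (Set F)) (y : F) :
    y ∈ un (Q :: L) ↔ y ∈ Q ∨ y ∈ un L := by
  simp [un]

private lemma un_map {F : Type} (Q : Set F) (L : List (Set F)) :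
    un (L.map (fun O => O ∩ Q)) = un L ∩ Q := by
  ext y
  constructor
  · rintro ⟨O, hO, hy⟩
    obtain ⟨O', hO', rfl⟩ := List.mem_map.1 hO
    exact ⟨⟨O', hO', hy.1⟩, hy.2⟩
  · rintro ⟨⟨O, hO, hy⟩, hyQ⟩
    exact ⟨O ∩ Q, List.mem_map.2 ⟨O, hO, rfl⟩, hy, hyQ⟩

private lemma un_open {F : Type} [TopologicalSpace F] (L : List (Set F))
    (h : ∀ O ∈ L, IsOpen O) : IsOpen (un L) := by
  have h1 : un L = ⋃ O ∈ L, O := by
    ext y
    simp [un]
  rw [h1]
  exact isOpen_iUnion (fun O => isOpen_iUnion (fun hO => h O hO))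

private lemma we_congr {E F : Type} [TopologicalSpace E] [TopologicalSpace F] {X X' : Set E}
    {Y Y' : Set F} {f : E → F} (h : WE X Y f) (hX : X' = X) (hY : Y' = Y) : WE X' Y' f := by
  rw [hX, hY]
  exact h

private lemma fin_case (hG : StGLU) (hW : StWCG) {E F : Type} [TopologicalSpace E]
    [TopologicalSpace F] (X : Set E) (Y : Set F) (f : E → F) (U : Set (Set F)) (hf : Mp X Y f)
    (hO : ∀ O ∈ U, IsOpen O) (hI : ∀ O ∈ U, ∀ O' ∈ U, O ∩ O' ∈ U)
    (hWE : ∀ O ∈ U, WE (X ∩ f ⁻¹' O) (Y ∩ O) f) :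
    ∀ (m : ℕ) (L : List (Set F)), L.length = m → (∀ O ∈ L, O ∈ U) →
      WE (X ∩ f ⁻¹' (un L)) (Y ∩ un L) f := by
  intro m
  induction m with
  | zero =>
    intro L hL _
    have h1 : L = [] := List.eq_nil_of_length_eq_zero hL
    subst h1
    refine we_congr (hW.2.2.2 E F f) ?_ ?_
    · rw [un_nil, preimage_empty, inter_empty]
    · rw [un_nil, inter_empty]
  | succ m ih =>
    intro L hL hLU
    obtain ⟨Q, L', rfl⟩ : ∃ Q L', L = Q :: L' := by
      cases L with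
      | nil => simp at hL
      | cons Q L' => exact ⟨Q, L', rfl⟩
    have hQ : Q ∈ U := hLU Q (by simp)
    have hL' : ∀ O ∈ L', O ∈ U := fun O h => hLU O (by simp [h])
    have hlen : L'.length = m := by simpa using hL
    have hPo : IsOpen (un L') := un_open L' (fun O h => hO O (hL' O h))
    have hQo : IsOpen Q := hO Q hQ
    obtain ⟨U₁, hU₁, hU₁'⟩ := (continuousOn_iff'.1 hf.1) (un L') hPo
    obtain ⟨U₂, hU₂, hU₂'⟩ := (continuousOn_iff'.1 hf.1) Q hQo
    have k1 : ∀ x ∈ X, (x ∈ U₁ ↔ f x ∈ un L') := by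
      intro x hx
      constructor
      · intro h
        have h2 : x ∈ U₁ ∩ X := ⟨h, hx⟩
        rw [← hU₁'] at h2
        exact h2.1
      · intro h
        have h2 : x ∈ f ⁻¹' (un L') ∩ X := ⟨h, hx⟩
        rw [hU₁'] at h2
        exact h2.1
    have k2 : ∀ x ∈ X, (x ∈ U₂ ↔ f x ∈ Q) := by
      intro x hx
      constructor
      · intro h
        have h2 : x ∈ U₂ ∩ X := ⟨h, hx⟩
        rw [← hU₂'] at h2
        exact h2.1
      · intro h
        have h2 : x ∈ f ⁻¹' Q ∩ X := ⟨h, hx⟩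
        rw [hU₂'] at h2
        exact h2.1
    refine hG E F _ _ f U₁ U₂ (un L') Q hU₁ hU₂ hPo hQo ?_ ?_ ?_ ?_ ?_
    · rintro x ⟨hx, hfx⟩
      rcases (mem_un_cons Q L' (f x)).1 hfx with h | h
      · exact Or.inr ((k2 x hx).2 h)
      · exact Or.inl ((k1 x hx).2 h)
    · rintro y ⟨_, hy⟩
      rcases (mem_un_cons Q L' y).1 hy with h | h
      · exact Or.inr h
      · exact Or.inl h
    · refine we_congr (ih L' hlen hL') ?_ ?_
      · ext x
        constructor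
        · rintro ⟨⟨hx, _⟩, hx1⟩
          exact ⟨hx, (k1 x hx).1 hx1⟩
        · rintro ⟨hx, hx1⟩
          exact ⟨⟨hx, (mem_un_cons Q L' (f x)).2 (Or.inr hx1)⟩, (k1 x hx).2 hx1⟩
      · ext y
        constructor
        · rintro ⟨⟨hy, _⟩, hy1⟩
          exact ⟨hy, hy1⟩
        · rintro ⟨hy, hy1⟩
          exact ⟨⟨hy, (mem_un_cons Q L' y).2 (Or.inr hy1)⟩, hy1⟩
    · refine we_congr (hWE Q hQ) ?_ ?_
      · ext x
        constructor
        · rintro ⟨⟨hx, _⟩, hx1⟩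
          exact ⟨hx, (k2 x hx).1 hx1⟩
        · rintro ⟨hx, hx1⟩
          exact ⟨⟨hx, (mem_un_cons Q L' (f x)).2 (Or.inl hx1)⟩, (k2 x hx).2 hx1⟩
      · ext y
        constructor
        · rintro ⟨⟨hy, _⟩, hy1⟩
          exact ⟨hy, hy1⟩
        · rintro ⟨hy, hy1⟩
          exact ⟨⟨hy, (mem_un_cons Q L' y).2 (Or.inl hy1)⟩, hy1⟩
    · have h3 := ih (L'.map (fun O => O ∩ Q)) (by rw [List.length_map]; exact hlen) (by
        intro O hOm
        obtain ⟨O', hO', rfl⟩ := List.mem_map.1 hOm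
        exact hI O' (hL' O' hO') Q hQ)
      rw [un_map] at h3
      refine we_congr h3 ?_ ?_
      · ext x
        constructor
        · rintro ⟨⟨hx, _⟩, hx1, hx2⟩
          exact ⟨hx, (k1 x hx).1 hx1, (k2 x hx).1 hx2⟩
        · rintro ⟨hx, hx1, hx2⟩
          exact ⟨⟨hx, (mem_un_cons Q L' (f x)).2 (Or.inl hx2)⟩, (k1 x hx).2 hx1, (k2 x hx).2 hx2⟩
      · ext y
        constructor
        · rintro ⟨⟨hy, _⟩, hy1⟩
          exact ⟨hy, hy1⟩
        · rintro ⟨hy, hy1, hy2⟩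
          exact ⟨⟨hy, (mem_un_cons Q L' y).2 (Or.inl hy2)⟩, hy1, hy2⟩

private lemma cb_compact (n : ℕ) : IsCompact (Cb n) := by
  have h : Cb n = Icc (0 : Fin n → ℝ) 1 := by
    ext u
    constructor
    · intro hu
      exact ⟨fun i => (hu i).1, fun i => (hu i).2⟩
    · intro hu i
      exact ⟨hu.1 i, hu.2 i⟩
  rw [h]
  exact isCompact_Icc

/-- Local to global for an open cover closed under intersections. -/
theorem hLGI : StGLU → StWCG → StLGI := by
  intro hG hW E F _ _ X Y f U hf hO hI hYU hWE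
  refine ⟨hf, ?_⟩
  intro n a b ha hb hab
  have hc : IsCompact (b '' Cb n) := (cb_compact n).image_of_continuousOn hb.1
  have hcov : b '' Cb n ⊆ ⋃ i ∈ U, (id i : Set F) := by
    rintro y ⟨u, hu, rfl⟩
    obtain ⟨O, hOU, hy⟩ := hYU (hb.2 hu)
    exact mem_biUnion hOU hy
  obtain ⟨S, hSU, hSf, hS⟩ := hc.elim_finite_subcover_image (b := U) (c := id)
    (fun O h => hO O h) hcov
  have hL : ∀ O ∈ hSf.toFinset.toList, O ∈ U := by
    intro O h
    rw [Finset.mem_toList, Set.Finite.mem_toFinset] at h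
    exact hSU h
  have hun : ∀ u ∈ Cb n, b u ∈ un hSf.toFinset.toList := by
    intro u hu
    have h1 := hS (mem_image_of_mem b hu)
    simp only [mem_iUnion, exists_prop, id] at h1
    obtain ⟨O, hOS, h2⟩ := h1
    refine ⟨O, ?_, h2⟩
    rw [Finset.mem_toList, Set.Finite.mem_toFinset]
    exact hOS
  have h1 := fin_case hG hW X Y f U hf hO hI hWE _ hSf.toFinset.toList rfl hL
  obtain ⟨c, H, hc1, hc2, hH1, hH2, hH3, hH4⟩ := h1.2 n a b
    ⟨ha.1, fun u hu => ⟨ha.2 hu, by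
      have h2 := hun u hu.1
      rw [hab u hu] at h2
      exact h2⟩⟩
    ⟨hb.1, fun u hu => ⟨hb.2 hu, hun u hu⟩⟩ hab
  exact ⟨c, H, ⟨hc1.1, fun u hu => (hc1.2 hu).1⟩, hc2, ⟨hH1.1, fun q hq => (hH1.2 hq).1⟩,
    hH2, hH3, hH4⟩

end Pool.Agent.Helper22.FX
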