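import Pool.Agent.Helper72.FX.StC1

set_option autoImplicit false

namespace Pool.Agent.Helper22.FX

open Polynomial Pool.Agent.Helper21.FX Pool.Agent.Helper72.FX

section

variable {B : Type} [CommRing B] {N : Type} [AddCommGroup N] [Module B N] [Module B[X] N]
  [IsScalarTower B B[X] N]

private lemma C_act (b : B) (y : N) : (C b : B[X]) • y = b • y := by
  have h := algebraMap_smul B[X] b y
  rwa [Polynomial.algebraMap_eq] at h

private lemma X_act (E s u : B) (h1 : ∀ y : N, (pel E s : B[X]) • y = 0)
    (h2 : ∀ y : N, (E * u) • y = y) (y : N) : (X : B[X]) • y = (u * s) • y := by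
  have h3 : (C E * X : B[X]) • y = (C s : B[X]) • y := by
    have h4 := h1 y
    rw [pel, sub_smul, sub_eq_zero] at h4
    exact h4
  have h5 : (X : B[X]) • y = (C (E * u) : B[X]) • ((X : B[X]) • y) := by
    rw [C_act, h2]
  rw [h5, smul_smul]
  have h6 : (C (E * u) * X : B[X]) = C u * (C E * X) := by
    rw [C_mul]; ring
  rw [h6, mul_smul, h3, smul_smul, ← C_mul, C_act]

private lemma pow_act (c : B) (h : ∀ y : N, (X : B[X]) • y = c • y) (n : ℕ) (y : N) :
    (X ^ n : B[X]) • y = (c ^ n) • y := by
  induction n with
  | zero => simp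
  | succ n ih =>
    rw [pow_succ' (X : B[X]) n, mul_smul, ih, h, smul_smul, pow_succ' c n]

private lemma poly_act (c : B) (h : ∀ y : N, (X : B[X]) • y = c • y) (p : B[X]) (y : N) :
    p • y = (p.eval c) • y := by
  induction p using Polynomial.induction_on' with
  | add p q hp hq => rw [add_smul, hp, hq, eval_add, add_smul]
  | monomial n b =>
    rw [← C_mul_X_pow_eq_monomial, mul_smul, pow_act c h, C_act, smul_smul]
    simp

private lemma fin_lemma (c : B) (h : ∀ y : N, (X : B[X]) • y = c • y)
    (hf : Module.Finite B[X] N) : Module.Finite B N := by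
  obtain ⟨S, hS⟩ := hf.fg_top
  refine ⟨⟨S, ?_⟩⟩
  rw [eq_top_iff]
  intro y _
  have hy : y ∈ Submodule.span B[X] (S : Set N) := by rw [hS]; exact Submodule.mem_top
  induction hy using Submodule.span_induction with
  | mem x hx => exact Submodule.subset_span hx
  | zero => exact Submodule.zero_mem _
  | add x z _ _ hx hz => exact Submodule.add_mem _ (hx trivial) (hz trivial)
  | smul p x _ hx =>
    rw [poly_act c h]
    exact Submodule.smul_mem _ _ (hx trivial)

private lemma one_act (E u : B) (h2 : ∀ y : N, (E * u) • y = y) (g : PolynomialModule B N) :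
    (C (E * u) : B[X]) • g = g := by
  induction g using PolynomialModule.induction_linear with
  | zero => simp
  | add p q hp hq => rw [smul_add, hp, hq]
  | single k m =>
    rw [← monomial_zero_left, PolynomialModule.monomial_smul_single, h2, zero_add]

private lemma shift_mem (E s u : B) (h2 : ∀ y : N, (E * u) • y = y) (g : PolynomialModule B N) :
    (X - C (u * s) : B[X]) • g = (pel E s : B[X]) • ((C u : B[X]) • g) := by
  rw [smul_smul, pel]
  have h3 : ((C E * X - C s) * C u : B[X]) = X * C (E * u) - C (u * s) := by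
    rw [C_mul, C_mul]; ring
  rw [h3, sub_smul, sub_smul, mul_smul, one_act E u h2]

private lemma inj_lemma (E s u : B) (h2 : ∀ y : N, (E * u) • y = y) (g : PolynomialModule B N)
    (hg : (pel E s : B[X]) • g = 0) : g = 0 := by
  have h3 : (C 1 * X - C (u * s) : B[X]) • g = 0 := by
    rw [C_1, one_mul, shift_mem E s u h2, smul_smul, mul_comm, mul_smul, hg, smul_zero]
  have h4 : ∀ n : ℕ, g.coeff n = (u * s) • g.coeff (n + 1) := by
    intro n
    have h5 := pm_smul_coeff_succ (1 : B) (u * s) g n
    rw [h3] at h5
    have h6 : (0 : PolynomialModule B N).coeff (n + 1) = 0 := rfl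
    rw [h6, one_smul] at h5
    exact (sub_eq_zero.1 h5.symm)
  have h7 : ∀ k n : ℕ, g.coeff n = (u * s) ^ k • g.coeff (n + k) := by
    intro k
    induction k with
    | zero => intro n; simp
    | succ k ih =>
      intro n
      rw [ih n, h4 (n + k), smul_smul, pow_succ]
      rfl
  have h8 : ∀ n : ℕ, g.coeff n = 0 := by
    intro n
    obtain ⟨M, hM⟩ := g.coeff.support.bddAbove
    rw [h7 (M + 1) n]
    have h9 : g.coeff (n + (M + 1)) = 0 := by
      by_contra hne
      have h10 : n + (M + 1) ∈ (g.coeff.support : Set ℕ) := by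
        simpa using hne
      have h11 := hM h10
      omega
    rw [h9, smul_zero]
  have h12 : g.coeff = 0 := by
    ext n
    exact h8 n
  exact PolynomialModule.ext h12

private lemma ker_lemma (E s u : B) (h1 : ∀ y : N, (pel E s : B[X]) • y = 0)
    (h2 : ∀ y : N, (E * u) • y = y) :
    LinearMap.range (LinearMap.lsmul B[X] (PolynomialModule B N) (pel E s)) =
      LinearMap.ker (plift (LinearMap.id : N →ₗ[B] N)) := by
  apply le_antisymm
  · rintro _ ⟨g, rfl⟩
    rw [LinearMap.mem_ker, LinearMap.lsmul_apply, map_smul, h1]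
  · intro g hg
    have key : ∀ g : PolynomialModule B N,
        g - PolynomialModule.single B 0 (plift (LinearMap.id : N →ₗ[B] N) g) ∈
          LinearMap.range (LinearMap.lsmul B[X] (PolynomialModule B N) (pel E s)) := by
      intro g
      induction g using PolynomialModule.induction_linear with
      | zero => simp
      | add p q hp hq =>
        have h3 : p + q - PolynomialModule.single B 0 (plift (LinearMap.id : N →ₗ[B] N) (p + q)) =
            (p - PolynomialModule.single B 0 (plift (LinearMap.id : N →ₗ[B] N) p)) +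
            (q - PolynomialModule.single B 0 (plift (LinearMap.id : N →ₗ[B] N) q)) := by
          rw [map_add, PolynomialModule.single_add]
          abel
        rw [h3]
        exact Submodule.add_mem _ hp hq
      | single n m =>
        rw [plift_single, LinearMap.id_apply, pow_act (u * s) (X_act E s u h1 h2)]
        have h3 : PolynomialModule.single B n m = (X ^ n : B[X]) • PolynomialModule.single B 0 m := by
          rw [← monomial_one_right_eq_X_pow, PolynomialModule.monomial_smul_single, one_smul,
            add_zero]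
        have h4 : PolynomialModule.single B 0 ((u * s) ^ n • m) =
            (C ((u * s) ^ n) : B[X]) • PolynomialModule.single B 0 m := by
          rw [← monomial_zero_left, PolynomialModule.monomial_smul_single, zero_add]
        rw [h3, h4, ← sub_smul, C_pow]
        obtain ⟨w, hw⟩ := sub_dvd_pow_sub_pow (X : B[X]) (C (u * s)) n
        rw [hw, mul_smul, shift_mem E s u h2]
        exact ⟨_, rfl⟩
    have h3 := key g
    rw [LinearMap.mem_ker] at hg
    rw [hg, PolynomialModule.single_zero, sub_zero] at h3
    exact h3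

end

/-- **CI**. -/
theorem hCI : StCI := by
  intro χA hχ N _ _ hf hk hD
  letI : Module B7 N := Module.compHom N (C : B7 →+* B8)
  haveI : IsScalarTower B7 B8 N := by
    refine ⟨fun b p n => ?_⟩
    have h1 : (b • p : B8) = C b * p := by rw [← smul_eq_C_mul]
    rw [h1, mul_smul]
    rfl
  obtain ⟨u, hu⟩ : ∃ u : B7, s7 * u = 1 - D7 :=
    ⟨-(t7 * (m7 * kx a7 b7 t7 + s7 * x7)), by rw [D7]; ring⟩
  have h1 : ∀ y : N, (pel s7 q7 : B8) • y = 0 := by
    intro y
    refine hk _ ?_ y
    exact Submodule.mem_sup_right (Ideal.subset_span rfl)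
  have h2 : ∀ y : N, (s7 * u) • y = y := by
    intro y
    rw [hu, sub_smul, one_smul, ← C_act (N := N) D7 y, hD, sub_zero]
  have hX := X_act (N := N) s7 q7 u h1 h2
  have hfin : Module.Finite B7 N := fin_lemma (u * q7) hX hf
  have h3 := hχ N hfin
  have hsurj : Function.Surjective (plift (LinearMap.id : N →ₗ[B7] N)) := by
    intro y
    refine ⟨PolynomialModule.single B7 0 y, ?_⟩
    rw [plift_single, LinearMap.id_apply, pow_zero, one_smul]
  have e : Ck (pel s7 q7) (PolynomialModule B7 N) ≃ₗ[B8] N :=
    (Submodule.quotEquivOfEq _ _ (ker_lemma s7 q7 u h1 h2)).trans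
      ((plift (LinearMap.id : N →ₗ[B7] N)).quotKerEquivOfSurjective hsurj)
  have h4 : χA.f (Ck (pel s7 q7) (PolynomialModule B7 N)) = χA.f N :=
    AF.equiv χA (gd_kil I8) e hf hk
  haveI : Subsingleton (Kn (pel s7 q7) (PolynomialModule B7 N)) := by
    refine ⟨fun a b => ?_⟩
    have ha : a = 0 := by
      apply Subtype.ext
      refine inj_lemma s7 q7 u h2 a.1 ?_
      have h5 := a.2
      rw [LinearMap.mem_ker, LinearMap.lsmul_apply] at h5
      exact h5
    have hb : b = 0 := by
      apply Subtype.ext
      refine inj_lemma s7 q7 u h2 b.1 ?_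
      have h5 := b.2
      rw [LinearMap.mem_ker, LinearMap.lsmul_apply] at h5
      exact h5
    rw [ha, hb]
  have h5 : χA.f (Kn (pel s7 q7) (PolynomialModule B7 N)) = 0 :=
    AF.of_subsingleton χA (gd_kil I8) _
  rw [h4, h5, sub_zero] at h3
  exact h3

end Pool.Agent.Helper22.FX
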