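import Pool.Agent.Helper84.FX.StT

set_option autoImplicit false

namespace Pool.Agent.Helper22.FX

open Pool.Agent.Helper84.FX Set

private lemma low_mem {d : ℕ} (e : Cel d) : (fun i => (e.1 i : ℝ)) ∈ cel e := by
  intro i
  refine ⟨fun _ => ⟨le_refl _, ?_⟩, fun _ => rfl⟩
  simp

private lemma high_mem {d : ℕ} (e : Cel d) :
    (fun i => if i ∈ e.2 then (e.1 i : ℝ) + 1 else (e.1 i : ℝ)) ∈ cel e := by
  intro i
  refine ⟨fun h => ?_, fun h => ?_⟩
  · simp [h]
  · simp [h]

private lemma one_part {d : ℕ} (e e' : Cel d) (u : Fin d → ℝ) (h1 : u ∈ cel e) (h2 : u ∉ cbd e)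
    (h3 : u ∈ cel e') : cel e ⊆ cel e' := by
  intro v hv i
  by_cases hi : i ∈ e.2
  · obtain ⟨ha, hb⟩ := (h1 i).1 hi
    have hne : ¬ (u i = (e.1 i : ℝ) ∨ u i = (e.1 i : ℝ) + 1) := by
      intro h
      exact h2 ⟨h1, i, hi, h⟩
    have hna : u i ≠ (e.1 i : ℝ) := fun h => hne (Or.inl h)
    have hnb : u i ≠ (e.1 i : ℝ) + 1 := fun h => hne (Or.inr h)
    have ha' : (e.1 i : ℝ) < u i := lt_of_le_of_ne ha (Ne.symm hna)
    have hb' : u i < (e.1 i : ℝ) + 1 := lt_of_le_of_ne hb hnb
    by_cases hi' : i ∈ e'.2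
    · obtain ⟨hc, hd⟩ := (h3 i).1 hi'
      have h5 : (e.1 i : ℝ) < (e'.1 i : ℝ) + 1 := lt_of_lt_of_le ha' hd
      have h6 : (e'.1 i : ℝ) < (e.1 i : ℝ) + 1 := lt_of_le_of_lt hc hb'
      have h5' : e.1 i < e'.1 i + 1 := by exact_mod_cast h5
      have h6' : e'.1 i < e.1 i + 1 := by exact_mod_cast h6
      have h7 : e'.1 i = e.1 i := by omega
      refine ⟨fun _ => ?_, fun h => absurd hi' h⟩
      rw [h7]
      exact (hv i).1 hi
    · exfalso
      have hc := (h3 i).2 hi'
      rw [hc] at ha' hb'
      have h5' : e.1 i < e'.1 i := by exact_mod_cast ha'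
      have h6' : e'.1 i < e.1 i + 1 := by exact_mod_cast hb'
      omega
  · have hv' := (hv i).2 hi
    have hu' := (h1 i).2 hi
    have h8 : v i = u i := by rw [hv', hu']
    rw [h8]
    exact h3 i

private lemma A_part {d : ℕ} (e e' : Cel d) (h : cel e' ⊆ cel e) : e'.2 ⊆ e.2 := by
  intro i hi
  by_contra hn
  have h1 := (h (low_mem e') i).2 hn
  have h2 := (h (high_mem e') i).2 hn
  simp only [hi, if_true] at h1 h2
  linarith

private lemma B_part {d : ℕ} (e e' : Cel d) (h : cel e' ⊆ cel e) (h2 : e'.2 = e.2) : e' = e := by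
  refine Prod.ext ?_ h2
  funext i
  by_cases hi : i ∈ e.2
  · have h3 := ((h (low_mem e') i).1 hi).1
    have h4 := ((h (high_mem e') i).1 hi).2
    have hi' : i ∈ e'.2 := by rw [h2]; exact hi
    simp only [hi', if_true] at h3 h4
    have h5 : (e'.1 i : ℝ) = (e.1 i : ℝ) := by linarith
    exact_mod_cast h5
  · have h3 := (h (low_mem e') i).2 hi
    exact_mod_cast h3

private lemma three_part {d : ℕ} (e e' : Cel d) (h : cel e = cel e') : e = e' := by
  have h1 := A_part e e' (le_of_eq h.symm)
  have h2 := A_part e' e (le_of_eq h)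
  exact (B_part e e' (le_of_eq h.symm) (Finset.Subset.antisymm h1 h2)).symm

private lemma face_part {d : ℕ} (e : Cel d) (u : Fin d → ℝ) (hu : u ∈ cel e) (i : Fin d)
    (hi : i ∈ e.2) (z : ℤ) (hz : z = e.1 i ∨ z = e.1 i + 1) (huz : u i = (z : ℝ)) :
    ∃ e' : Cel d, u ∈ cel e' ∧ cel e' ⊆ cel e ∧ e' ≠ e ∧ cel e' ⊆ cbd e := by
  have hsub : cel ((Function.update e.1 i z, e.2.erase i) : Cel d) ⊆ cel e := by
    intro v hv j
    by_cases hj : j = i
    · subst hj
      have h1 := (hv j).2 (by simp)
      simp only [Function.update_self] at h1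
      refine ⟨fun _ => ?_, fun h => absurd hi h⟩
      rw [h1]
      rcases hz with hz | hz
      · rw [hz]; constructor <;> linarith
      · rw [hz]; push_cast; constructor <;> linarith
    · have h1 := hv j
      simp only [Function.update_of_ne hj, Finset.mem_erase, ne_eq, hj, not_false_eq_true,
        true_and] at h1
      exact h1
  refine ⟨(Function.update e.1 i z, e.2.erase i), ?_, hsub, ?_, ?_⟩
  · intro j
    by_cases hj : j = i
    · subst hj
      refine ⟨fun h => ?_, fun _ => ?_⟩
      · simp at h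
      · simp only [Function.update_self]
        exact huz
    · have h1 := hu j
      simp only [Function.update_of_ne hj, Finset.mem_erase, ne_eq, hj, not_false_eq_true,
        true_and]
      exact h1
  · intro h
    have h1 : e.2.erase i = e.2 := congrArg Prod.snd h
    have h2 : i ∈ e.2.erase i := by rw [h1]; exact hi
    simp at h2
  · intro v hv
    refine ⟨hsub hv, i, hi, ?_⟩
    have h1 := (hv i).2 (by simp)
    simp only [Function.update_self] at h1
    rcases hz with hz | hz
    · left; rw [h1, hz]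
    · right; rw [h1, hz]; push_cast; rfl

private lemma cel_compact {d : ℕ} (e : Cel d) : IsCompact (cel e) := by
  have h : cel e = Set.pi univ
      (fun i => if i ∈ e.2 then Icc (e.1 i : ℝ) ((e.1 i : ℝ) + 1) else {(e.1 i : ℝ)}) := by
    ext u
    constructor
    · intro hu i _
      have h1 := hu i
      by_cases hi : i ∈ e.2
      · simp only [hi, if_true]
        exact h1.1 hi
      · simp only [hi, if_false]
        exact h1.2 hi
    · intro hu i
      have h1 := hu i (mem_univ i)
      by_cases hi : i ∈ e.2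
      · simp only [hi, if_true] at h1
        exact ⟨fun _ => h1, fun h => absurd hi h⟩
      · simp only [hi, if_false] at h1
        exact ⟨fun h => absurd h hi, fun _ => h1⟩
  rw [h]
  refine isCompact_univ_pi ?_
  intro i
  by_cases hi : i ∈ e.2
  · simp only [hi, if_true]
    exact isCompact_Icc
  · simp only [hi, if_false]
    exact isCompact_singleton

private lemma cbd_compact {d : ℕ} (e : Cel d) : IsCompact (cbd e) := by
  have h : cbd e = cel e ∩ ⋃ i ∈ e.2, {u : Fin d → ℝ | u i = (e.1 i : ℝ) ∨ u i = (e.1 i : ℝ) + 1} := by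
    ext u
    simp only [cbd, mem_setOf_eq, mem_inter_iff, mem_iUnion, exists_prop]
  rw [h]
  refine (cel_compact e).inter_right ?_
  refine isClosed_biUnion_finset ?_
  intro i _
  have h1 : {u : Fin d → ℝ | u i = (e.1 i : ℝ) ∨ u i = (e.1 i : ℝ) + 1} =
      {u : Fin d → ℝ | u i = (e.1 i : ℝ)} ∪ {u : Fin d → ℝ | u i = (e.1 i : ℝ) + 1} := rfl
  rw [h1]
  exact (isClosed_eq (continuous_apply i) continuous_const).union
    (isClosed_eq (continuous_apply i) continuous_const)

/-- Elementary geometry of the cells of the integer grid. -/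
theorem hIFC : StIFC := by
  intro d
  refine ⟨one_part, ?_, three_part, ?_, ?_⟩
  · intro e u hu
    obtain ⟨hu1, i, hi, h⟩ := hu
    rcases h with h | h
    · exact face_part e u hu1 i hi (e.1 i) (Or.inl rfl) h
    · exact face_part e u hu1 i hi (e.1 i + 1) (Or.inr rfl) (by rw [h]; push_cast; rfl)
  · intro e
    exact ⟨cel_compact e, cbd_compact e, ⟨_, low_mem e⟩⟩
  · intro e e' h hne
    constructor
    · intro v hv
      by_contra hn
      have h1 := one_part e e' v (h hv) hn hv
      exact hne (three_part e' e (Subset.antisymm h h1))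
    · have h1 := A_part e e' h
      by_contra hc
      push Not at hc
      exact hne (B_part e e' h (Finset.eq_of_subset_of_card_le h1 hc))

end Pool.Agent.Helper22.FX
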