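import Pool.Agent.Helper9.FX.StP

set_option autoImplicit false

namespace Pool.Agent.Helper22.FX

open Set Complex
open Pool.Agent.Helper84.FX (Mp WE Htp II StHEQ)
open Pool.Agent.Helper9.FX

private lemma gen (hH : StHEQ) (U : Set ℂ) (X : Set EQ) (ch : ℂ → ℂ → ℂ → EQ) (z r : EQ → ℂ)
    (hX : ∀ v ∈ X, v.1 ∈ U) (hz : ContinuousOn z X) (hr : ContinuousOn r X)
    (hch : ContinuousOn (fun q : ℂ × ℂ × ℂ => ch q.1 q.2.1 q.2.2) (U ×ˢ univ))
    (h1 : ∀ t ∈ U, ∀ ζ ρ : ℂ, ch t ζ ρ ∈ X ∧ (ch t ζ ρ).1 = t)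
    (h2 : ∀ v ∈ X, ch v.1 (z v) (r v) = v) : WE X U (fun v : EQ => v.1) := by
  refine hH EQ ℂ X U (fun v : EQ => v.1) (fun t => ch t 0 0) ?_ ?_ ?_ ?_
  · exact ⟨continuous_fst.continuousOn, fun v hv => hX v hv⟩
  · refine ⟨?_, fun t ht => (h1 t ht 0 0).1⟩
    have h3 : ContinuousOn (fun t : ℂ => ((t, 0, 0) : ℂ × ℂ × ℂ)) U := by fun_prop
    exact hch.comp h3 (fun t ht => ⟨ht, mem_univ _⟩)
  · refine ⟨fun q => ch q.2.1 ((q.1 : ℂ) * z q.2) ((q.1 : ℂ) * r q.2), ⟨?_, ?_⟩, ?_, ?_⟩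
    · have hzz : ContinuousOn (fun q : ℝ × EQ => z q.2) (II ×ˢ X) :=
        hz.comp continuous_snd.continuousOn (fun q hq => hq.2)
      have hrr : ContinuousOn (fun q : ℝ × EQ => r q.2) (II ×ˢ X) :=
        hr.comp continuous_snd.continuousOn (fun q hq => hq.2)
      have hc : ContinuousOn (fun q : ℝ × EQ => (q.1 : ℂ)) (II ×ˢ X) :=
        (Complex.continuous_ofReal.comp continuous_fst).continuousOn
      have hv : ContinuousOn (fun q : ℝ × EQ => q.2.1) (II ×ˢ X) :=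
        (continuous_fst.comp continuous_snd).continuousOn
      have h3 : ContinuousOn (fun q : ℝ × EQ =>
          ((q.2.1, (q.1 : ℂ) * z q.2, (q.1 : ℂ) * r q.2) : ℂ × ℂ × ℂ)) (II ×ˢ X) :=
        hv.prodMk ((hc.mul hzz).prodMk (hc.mul hrr))
      exact hch.comp h3 (fun q hq => ⟨hX q.2 hq.2, mem_univ _⟩)
    · intro q hq
      exact (h1 q.2.1 (hX q.2 hq.2) _ _).1
    · intro v _
      simp
    · intro v hv
      simp only [Complex.ofReal_one, one_mul, id]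
      exact h2 v hv
  · refine ⟨fun q => q.2, ⟨continuous_snd.continuousOn, fun q hq => hq.2⟩, ?_, ?_⟩
    · intro t ht
      exact (h1 t ht 0 0).2.symm
    · intro t _
      rfl

/-- The pieces of `Q`. -/
theorem hPQW (hH : StHEQ) (hA : StPCA) (hT : StPCT) : StPQW := by
  intro U s hs
  obtain ⟨-, -, a3, a4, a5, a6, a7, a8⟩ := hA U s hs
  obtain ⟨-, -, t3, t4, t5, t6, t7, t8⟩ := hT U s hs
  refine ⟨?_, ?_, ?_⟩
  · exact gen hH U (QU U ∩ V1 U s) (ch1 s) (ze1 s) (fun v : EQ => rr (s v.1) v)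
      (fun v hv => hv.1.1) (t3.mono inter_subset_right) (t5.mono inter_subset_right) t7
      (fun t ht ζ ρ => ⟨(a4 t ht ζ ρ).1, (a4 t ht ζ ρ).2.1⟩) (fun v hv => (a3 v hv).2.2)
  · exact gen hH U (QU U ∩ V2 U s) (ch2 s) (ze2 s) (fun v : EQ => pp (s v.1) v)
      (fun v hv => hv.1.1) (t4.mono inter_subset_right) (t6.mono inter_subset_right) t8
      (fun t ht ζ ρ => ⟨(a6 t ht ζ ρ).1, (a6 t ht ζ ρ).2.1⟩) (fun v hv => (a5 v hv).2.2)
  · have hsub : QU U ∩ (V1 U s ∩ V2 U s) ⊆ V1 U s := fun v hv => hv.2.1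
    have hz : ContinuousOn (ze1 s) (QU U ∩ (V1 U s ∩ V2 U s)) := t3.mono hsub
    have hr : ContinuousOn (fun v : EQ => rr (s v.1) v) (QU U ∩ (V1 U s ∩ V2 U s)) := t5.mono hsub
    have hze : ∀ v ∈ QU U ∩ (V1 U s ∩ V2 U s), ze1 s v ≠ 0 := fun v hv =>
      (a7 v ⟨hv.1, hv.2.1⟩).1 hv.2.2
    refine hH EQ (ℂ × ℂ) (QU U ∩ (V1 U s ∩ V2 U s)) (UC U) (fun v : EQ => (v.1, ze1 s v))
      (fun q : ℂ × ℂ => ch1 s q.1 q.2 0) ?_ ?_ ?_ ?_
    · refine ⟨continuous_fst.continuousOn.prodMk hz, fun v hv => ?_⟩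
      exact ⟨hv.1.1, hze v hv⟩
    · refine ⟨?_, ?_⟩
      · have h3 : ContinuousOn (fun q : ℂ × ℂ => ((q.1, q.2, 0) : ℂ × ℂ × ℂ)) (UC U) := by fun_prop
        exact t7.comp h3 (fun q hq => ⟨hq.1, mem_univ _⟩)
      · intro q hq
        have h4 := (a4 q.1 hq.1 q.2 0).1
        exact ⟨h4.1, h4.2, (a8 q.1 hq.1 q.2 0).2 hq.2⟩
    · refine ⟨fun q => ch1 s q.2.1 (ze1 s q.2) ((q.1 : ℂ) * rr (s q.2.1) q.2), ⟨?_, ?_⟩, ?_, ?_⟩
      · have hzz : ContinuousOn (fun q : ℝ × EQ => ze1 s q.2)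
            (II ×ˢ (QU U ∩ (V1 U s ∩ V2 U s))) :=
          hz.comp continuous_snd.continuousOn (fun q hq => hq.2)
        have hrr : ContinuousOn (fun q : ℝ × EQ => rr (s q.2.1) q.2)
            (II ×ˢ (QU U ∩ (V1 U s ∩ V2 U s))) :=
          hr.comp continuous_snd.continuousOn (fun q hq => hq.2)
        have hc : ContinuousOn (fun q : ℝ × EQ => (q.1 : ℂ))
            (II ×ˢ (QU U ∩ (V1 U s ∩ V2 U s))) :=
          (Complex.continuous_ofReal.comp continuous_fst).continuousOn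
        have hv : ContinuousOn (fun q : ℝ × EQ => q.2.1)
            (II ×ˢ (QU U ∩ (V1 U s ∩ V2 U s))) :=
          (continuous_fst.comp continuous_snd).continuousOn
        have h3 : ContinuousOn (fun q : ℝ × EQ =>
            ((q.2.1, ze1 s q.2, (q.1 : ℂ) * rr (s q.2.1) q.2) : ℂ × ℂ × ℂ))
            (II ×ˢ (QU U ∩ (V1 U s ∩ V2 U s))) :=
          hv.prodMk (hzz.prodMk (hc.mul hrr))
        exact t7.comp h3 (fun q hq => ⟨hq.2.1.1, mem_univ _⟩)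
      · intro q hq
        have h4 := (a4 q.2.1 hq.2.1.1 (ze1 s q.2) ((q.1 : ℂ) * rr (s q.2.1) q.2)).1
        exact ⟨h4.1, h4.2, (a8 q.2.1 hq.2.1.1 _ _).2 (hze q.2 hq.2)⟩
      · intro v _
        simp
      · intro v hv
        simp only [Complex.ofReal_one, one_mul, id]
        exact (a3 v ⟨hv.1, hv.2.1⟩).2.2
    · refine ⟨fun q => q.2, ⟨continuous_snd.continuousOn, fun q hq => hq.2⟩, ?_, ?_⟩
      · intro q hq
        have h4 := a4 q.1 hq.1 q.2 0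
        simp only [Function.comp]
        rw [h4.2.1, h4.2.2.1]
      · intro q _
        rfl

end Pool.Agent.Helper22.FX
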